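import Mathlib

set_option autoImplicit false
set_option maxHeartbeats 400000

open Filter Topology

namespace Pool.Agent.Results.MP_69a59d_an.Bounded

theorem result (H : Type) [NormedAddCommGroup H] [NormedSpace ℂ H] [CompleteSpace H]
    (T : H →ₗ[ℂ] H) (hT : ∀ x, ‖T x‖ ^ 2 ≤ ‖T (T x)‖ * ‖x‖) : ∃ C : ℝ, ∀ x, ‖T x‖ ≤ C * ‖x‖ := by
  obtain ⟨n, a, ha⟩ := nonempty_interior_of_iUnion_of_closed
    (f := fun n : ℕ => closure {x : H | ‖T (T x)‖ ≤ n}) (fun _ => isClosed_closure)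
    (Set.eq_univ_of_forall fun x => (exists_nat_ge ‖T (T x)‖).elim fun n h =>
      Set.mem_iUnion.2 ⟨n, subset_closure h⟩)
  obtain ⟨δ, hδ, hb⟩ := Metric.mem_nhds_iff.1 (mem_interior_iff_mem_nhds.1 ha)
  have key : ∀ u ∈ closure {x : H | ‖T (T x)‖ ≤ n}, ‖T u‖ ≤ √(n * ‖u‖) := fun u hu => by
    obtain ⟨x, hx, ht⟩ := mem_closure_iff_seq_limit.1 hu
    have := ((ht.norm.const_mul (n : ℝ)).sqrt).add
      (((ht.const_sub u).norm.const_mul (‖T (T u)‖ + n)).sqrt)
    simp only [sub_self, norm_zero, mul_zero, Real.sqrt_zero, add_zero] at this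
    refine ge_of_tendsto' this fun k => ?_
    have h1 : ‖T (x k)‖ ≤ √(n * ‖x k‖) :=
      Real.le_sqrt_of_sq_le ((hT _).trans (mul_le_mul_of_nonneg_right (hx k) (norm_nonneg _)))
    have h2 : ‖T (u - x k)‖ ≤ √((‖T (T u)‖ + n) * ‖u - x k‖) :=
      Real.le_sqrt_of_sq_le ((hT _).trans (mul_le_mul_of_nonneg_right (by
        rw [map_sub, map_sub]; exact (norm_sub_le _ _).trans (add_le_add le_rfl (hx k))) (norm_nonneg _)))
    rw [map_sub] at h2
    linarith [norm_sub_norm_le (T u) (T (x k))]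
  refine LinearMap.bound_of_ball_bound hδ (√(n * (‖a‖ + δ)) + ‖T a‖) T fun y hy => ?_
  have h1 := key (a + y) (hb (by simpa using hy))
  have h2 : √(n * ‖a + y‖) ≤ √(n * (‖a‖ + δ)) := by
    gcongr; exact (norm_add_le _ _).trans (add_le_add le_rfl (mem_ball_zero_iff.1 hy).le)
  rw [map_add] at h1
  have h3 := norm_sub_le (T a + T y) (T a)
  rw [add_sub_cancel_left] at h3
  linarith

end Pool.Agent.Results.MP_69a59d_an.Bounded
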